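import Pool.Agent.H74.OD.T.ONED
import Pool.Agent.H74.OD.T.TWO
import Pool.Agent.H74.OD.T.PAR
import Pool.Agent.H74.OD.T.BDB
import Pool.Agent.H74.OD.T.INI
import Pool.Agent.H74.OD.T.DIS
import Pool.Agent.H74.OD.T.NSP
import Pool.Agent.H74.OD.T.FUB
import Pool.Agent.H74.OD.T.FIN

/-!
# Parallel flows in rectangular ducts with one controlled side are stopped in arbitrarily short time

The walls are `x_0 = 0`, `x_1 = 0` and `x_1 = B`. A domain in `{0 < x_0 < A, 0 < x_1 < B}` whose uncontrolled boundary lies on
these three walls (for example the piece `(0,A) x (0,B) x (-c,c)` of a rectangular duct, with controls on the side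
`x_0 = A` and on the two ends) is covered: the control is the trace of the flow. The initial velocity is
`(0, 0, w₀(x_0, x_1))` with an arbitrary square integrable function `w₀` of two variables.
-/

set_option autoImplicit false

namespace Pool.Agent.H74.Old.DuctsWithOpenSide

open Set MeasureTheory Pool.Agent.H74.OD

/-- Let `A, B, T > 0` and let `w₀` be square integrable on `(0,A) x (0,B)`. The parallel flow `(0, 0, w₀(x_0, x_1))` is
brought to rest at time `T`, exactly, by a parallel solution of the Navier-Stokes equations with zero pressure in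
`0 ≤ x_0 ≤ A` which vanishes on the walls `x_0 = 0`, `x_1 = 0`, `x_1 = B`. -/
theorem result : ∀ (A B T : ℝ) (w₀ : ℝ × ℝ → ℝ), 0 < A → 0 < B → 0 < T →
    MemLp w₀ 2 (volume.restrict (Ioo 0 A ×ˢ Ioo 0 B)) →
    ∃ u : ℝ → (Fin 3 → ℝ) → (Fin 3 → ℝ), Open3 A B T w₀ u :=
  T.FIN.main (T.TWO.main T.ONED.main) T.BDB.main (T.INI.main T.PAR.main) (T.DIS.main T.PAR.main)
    T.NSP.main T.FUB.main

end Pool.Agent.H74.Old.DuctsWithOpenSide
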